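import Pool.Agent.W172.MK.Stm

/-!
MP_65c995_pr (frozen S19375), project MK, part NHZ: orthogonality of the symbols.
-/

set_option autoImplicit false

open MeasureTheory ProbabilityTheory Filter Topology

namespace Pool.Agent.W298.MK.Nhz

open Pool.Agent.W172.MK

section
variable {n M : ℕ} {eps : Fin (M + 1) → V n → ℝ}

lemma cs_sq (χ : Bool) : cs χ * cs χ = 1 := by
  unfold cs; split_ifs <;> norm_num

lemma cs_abs (χ : Bool) : |cs χ| = 1 := by
  unfold cs; split_ifs <;> norm_num

lemma eps_sq (hG : Good eps) (y : Fin (M + 1)) (b : V n) : eps y b * eps y b = 1 := by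
  rcases hG.sq y b with h | h <;> rw [h] <;> norm_num

lemma eps_abs (hG : Good eps) (y : Fin (M + 1)) (b : V n) : |eps y b| = 1 := by
  rcases hG.sq y b with h | h <;> rw [h] <;> norm_num

lemma meas_eps (t : ℕ) (b : V n) : Measurable (fun z : ℕ → Fin (M + 1) => eps (z t) b) :=
  (measurable_of_finite (fun c : Fin (M + 1) => eps c b)).comp (measurable_pi_apply t)

lemma fac_le (hG : Good eps) (χ : Bool) (y : Fin (M + 1)) (b : V n) :
    |1 + cs χ * eps y b| ≤ 2 ∧ |1 - cs χ * eps y b| ≤ 2 := by
  have h : |cs χ * eps y b| = 1 := by rw [abs_mul, cs_abs, eps_abs hG, one_mul]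
  have h1 := abs_le.1 h.le
  constructor <;> rw [abs_le] <;> constructor <;> linarith [h1.1, h1.2]

lemma Nh_bdd (hD : P_DDL) (hG : Good eps) (t : ℕ) (χ : Bool) (b : V n) :
    ∃ C : ℝ, 0 ≤ C ∧ ∀ y z, |Nh eps y z t χ b| ≤ C := by
  obtain ⟨C, hC⟩ := (hD n M eps).2.2.2 t
  have hC0 : 0 ≤ C := (abs_nonneg _).trans (hC (fun _ => 0) (fun _ => 0) b)
  refine ⟨C * 2 * 2, by positivity, fun y z => ?_⟩
  unfold Nh
  rw [abs_mul, abs_mul, abs_neg]
  have h1 := hC y z b
  have h2 := (fac_le hG χ (y t) b).1
  have h3 := (fac_le hG χ (z t) b).2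
  gcongr

lemma DD_meas_r (hD : P_DDL) (y : ℕ → Fin (M + 1)) (t : ℕ) (b : V n) :
    Measurable (fun z => DD eps y z t b) :=
  ((hD n M eps).2.2.1 t b).comp (measurable_const.prodMk measurable_id)

lemma DD_meas_l (hD : P_DDL) (y : ℕ → Fin (M + 1)) (t : ℕ) (b : V n) :
    Measurable (fun z => DD eps z y t b) :=
  ((hD n M eps).2.2.1 t b).comp (measurable_id.prodMk measurable_const)

lemma Nh_meas_r (hD : P_DDL) (y : ℕ → Fin (M + 1)) (t : ℕ) (χ : Bool) (b : V n) :
    Measurable (fun z => Nh eps y z t χ b) := by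
  unfold Nh
  exact (((DD_meas_r hD y t b).neg.mul_const _).mul
    (measurable_const.sub ((meas_eps t b).const_mul (cs χ))))

lemma Nh_meas_l (hD : P_DDL) (y : ℕ → Fin (M + 1)) (t : ℕ) (χ : Bool) (b : V n) :
    Measurable (fun z => Nh eps z y t χ b) := by
  unfold Nh
  exact (((DD_meas_l hD y t b).neg.mul
    (measurable_const.add ((meas_eps t b).const_mul (cs χ)))).mul_const _)

lemma DD_upd (hD : P_DDL) (y z : ℕ → Fin (M + 1)) (t r : ℕ) (c : Fin (M + 1)) (h : t ≤ r) :
    DD eps y (Function.update z r c) t = DD eps y z t := by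
  refine (hD n M eps).2.1 y _ _ t fun i hi => ?_
  rw [Function.update_of_ne]
  omega

lemma DD_upd' (hD : P_DDL) (y z : ℕ → Fin (M + 1)) (t r : ℕ) (c : Fin (M + 1)) (h : t ≤ r) :
    DD eps (Function.update z r c) y t = DD eps z y t := by
  rw [(hD n M eps).1 _ y, DD_upd hD y z t r c h, (hD n M eps).1]

lemma Nh_upd (hD : P_DDL) (y z : ℕ → Fin (M + 1)) (t r : ℕ) (c : Fin (M + 1)) (h : t < r)
    (χ : Bool) (b : V n) : Nh eps (Function.update z r c) y t χ b = Nh eps z y t χ b := by
  unfold Nh
  rw [DD_upd' hD y z t r c h.le, Function.update_of_ne (by omega)]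

end

theorem nhz : P_DDL → P_RES → P_LAMAVG → P_NHZ := by
  intro hD hR hL n M eps hG y y' t s χ b hst
  rcases hst.eq_or_lt with rfl | hst
  · have h0 : ∀ z, Nh eps y z s χ b * Nh eps z y' s χ b = 0 := by
      intro z
      have h1 : (1 - cs χ * eps (z s) b) * (1 + cs χ * eps (z s) b) = 0 := by
        have a1 := cs_sq χ
        have a2 := eps_sq hG (z s) b
        have : (1 - cs χ * eps (z s) b) * (1 + cs χ * eps (z s) b) =
            1 - (cs χ * cs χ) * (eps (z s) b * eps (z s) b) := by ring
        rw [this, a1, a2]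
        norm_num
      unfold Nh
      have e : -DD eps y z s b * (1 + cs χ * eps (y s) b) * (1 - cs χ * eps (z s) b) *
          (-DD eps z y' s b * (1 + cs χ * eps (z s) b) * (1 - cs χ * eps (y' s) b)) =
          (-DD eps y z s b * (1 + cs χ * eps (y s) b) *
          (-DD eps z y' s b * (1 - cs χ * eps (y' s) b))) *
          ((1 - cs χ * eps (z s) b) * (1 + cs χ * eps (z s) b)) := by ring
      rw [e, h1, mul_zero]
    simp only [h0, integral_zero]
  · obtain ⟨C1, hC10, hC1⟩ := Nh_bdd hD hG t χ b
    obtain ⟨C2, hC20, hC2⟩ := Nh_bdd hD hG s χ b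
    obtain ⟨C3, hC3⟩ := (hD n M eps).2.2.2 t
    have hC30 : 0 ≤ C3 := (abs_nonneg _).trans (hC3 (fun _ => 0) (fun _ => 0) b)
    have hM : ((M : ℝ) + 1) ≠ 0 := by positivity
    rw [hR M (fun z => Nh eps y z t χ b * Nh eps z y' s χ b)
      ((Nh_meas_r hD y t χ b).mul (Nh_meas_l hD y' s χ b))
      ⟨C1 * C2, fun z => by
        rw [abs_mul]
        have := hC1 y z
        have := hC2 z y'
        gcongr⟩ t]
    -- the average at `t`
    have h1 : ∀ z : ℕ → Fin (M + 1), (∑ c, Nh eps y (Function.update z t c) t χ b *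
        Nh eps (Function.update z t c) y' s χ b) / ((M : ℝ) + 1) =
        -DD eps y z t b * (1 + cs χ * eps (y t) b) * Nh eps z y' s χ b := by
      intro z
      have e : ∀ c, Nh eps y (Function.update z t c) t χ b *
          Nh eps (Function.update z t c) y' s χ b =
          (-DD eps y z t b * (1 + cs χ * eps (y t) b) * Nh eps z y' s χ b) *
          (1 - cs χ * eps c b) := by
        intro c
        rw [Nh_upd hD y' z s t c hst]
        unfold Nh
        rw [DD_upd hD y z t t c le_rfl, Function.update_self]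
        ring
      simp only [e]
      rw [← Finset.mul_sum, Finset.sum_sub_distrib, ← Finset.mul_sum, hG.mean b, mul_zero,
        sub_zero]
      simp only [Finset.sum_const, Finset.card_univ, Fintype.card_fin, nsmul_eq_mul, mul_one]
      push_cast
      field_simp
    have h1' : (∫ z, (∑ c, Nh eps y (Function.update z t c) t χ b *
        Nh eps (Function.update z t c) y' s χ b) / ((M : ℝ) + 1) ∂(muSeq M)) =
        ∫ z, -DD eps y z t b * (1 + cs χ * eps (y t) b) * Nh eps z y' s χ b ∂(muSeq M) := by
      refine integral_congr_ae (Eventually.of_forall fun z => ?_)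
      exact h1 z
    refine (h1' : _ = _).trans ?_
    obtain ⟨r, rfl⟩ : ∃ r, t = r + 1 := ⟨t - 1, by omega⟩
    have hsr : s ≤ r := by omega
    rw [hR M (fun z => -DD eps y z (r + 1) b * (1 + cs χ * eps (y (r + 1)) b) *
        Nh eps z y' s χ b)
      (((DD_meas_r hD y (r + 1) b).neg.mul_const _).mul (Nh_meas_l hD y' s χ b))
      ⟨C3 * 2 * C2, fun z => by
        rw [abs_mul, abs_mul, abs_neg]
        have := hC3 y z b
        have := (fac_le hG χ (y (r + 1)) b).1
        have := hC2 z y'
        gcongr⟩ r]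
    have h2 : ∀ z : ℕ → Fin (M + 1), (∑ c, -DD eps y (Function.update z r c) (r + 1) b *
        (1 + cs χ * eps (y (r + 1)) b) * Nh eps (Function.update z r c) y' s χ b) /
        ((M : ℝ) + 1) = 0 := by
      intro z
      have hDD : ∀ c, DD eps y (Function.update z r c) (r + 1) b =
          Lam (fun b' => eps (y r) b' * eps c b') (DD eps y z r) b := by
        intro c
        have : DD eps y (Function.update z r c) (r + 1) b =
            Lam (fun b' => eps (y r) b' * eps ((Function.update z r c) r) b')
              (DD eps y (Function.update z r c) r) b := rfl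
        rw [this, DD_upd hD y z r r c le_rfl, Function.update_self]
      obtain ⟨L1, L2⟩ := hL n M eps hG (y r) (DD eps y z r) b
      rcases hsr.eq_or_lt with rfl | hlt
      · have e : ∀ c, -DD eps y (Function.update z s c) (s + 1) b *
            (1 + cs χ * eps (y (s + 1)) b) * Nh eps (Function.update z s c) y' s χ b =
            (1 + cs χ * eps (y (s + 1)) b) * (DD eps z y' s b * (1 - cs χ * eps (y' s) b)) *
            (Lam (fun b' => eps (y s) b' * eps c b') (DD eps y z s) b +
              cs χ * (Lam (fun b' => eps (y s) b' * eps c b') (DD eps y z s) b * eps c b)) := by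
          intro c
          rw [hDD c]
          unfold Nh
          rw [DD_upd' hD y' z s s c le_rfl, Function.update_self]
          ring
        simp only [e]
        rw [← Finset.mul_sum, Finset.sum_add_distrib, ← Finset.mul_sum, L1, L2, mul_zero,
          add_zero, mul_zero, zero_div]
      · have e : ∀ c, -DD eps y (Function.update z r c) (r + 1) b *
            (1 + cs χ * eps (y (r + 1)) b) * Nh eps (Function.update z r c) y' s χ b =
            (-(1 + cs χ * eps (y (r + 1)) b) * Nh eps z y' s χ b) *
            Lam (fun b' => eps (y r) b' * eps c b') (DD eps y z r) b := by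
          intro c
          rw [hDD c, Nh_upd hD y' z s r c hlt]
          ring
        simp only [e]
        rw [← Finset.mul_sum, L1, mul_zero, zero_div]
    simp only [h2, integral_zero]

end Pool.Agent.W298.MK.Nhz
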